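import Mathlib

/-!
# The pointwise ergodic theorem for bounded functions
-/

open MeasureTheory Filter Topology Set

namespace Pool.Agent.H408Z.NUH

variable {X : Type*} [MeasurableSpace X] {μ : Measure X} [IsFiniteMeasure μ] {T : X → X}

/-- Maximum of the first Birkhoff sums. -/
noncomputable def mxS (T : X → X) (ψ : X → ℝ) : ℕ → X → ℝ
  | 0 => ψ
  | n + 1 => fun x => ψ x + max 0 (mxS T ψ n (T x))

omit [MeasurableSpace X] in
theorem mxS_mono (ψ : X → ℝ) (n : ℕ) : ∀ x, mxS T ψ n x ≤ mxS T ψ (n + 1) x := by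
  induction n with
  | zero => intro x; simp [mxS]
  | succ n ih =>
    intro x
    have := ih (T x)
    change ψ x + max 0 (mxS T ψ n (T x)) ≤ ψ x + max 0 (mxS T ψ (n + 1) (T x))
    gcongr

omit [MeasurableSpace X] in
theorem le_mxS (ψ : X → ℝ) (n : ℕ) : ∀ x, birkhoffSum T ψ (n + 1) x ≤ mxS T ψ n x := by
  induction n with
  | zero => intro x; simp [mxS]
  | succ n ih =>
    intro x
    rw [birkhoffSum_succ']
    have := ih (T x)
    change _ ≤ ψ x + max 0 (mxS T ψ n (T x))
    have := le_max_right 0 (mxS T ψ n (T x))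
    linarith

omit [MeasurableSpace X] in
theorem abs_mxS {ψ : X → ℝ} {C : ℝ} (hC : ∀ x, |ψ x| ≤ C) (n : ℕ) :
    ∀ x, |mxS T ψ n x| ≤ (n + 1) * C := by
  induction n with
  | zero => intro x; simpa [mxS] using hC x
  | succ n ih =>
    intro x
    have h1 := abs_le.1 (ih (T x))
    have h2 := abs_le.1 (hC x)
    have h0 : 0 ≤ C := (abs_nonneg _).trans (hC x)
    have h3 : 0 ≤ ((n : ℝ) + 1) * C := by positivity
    change |ψ x + max 0 (mxS T ψ n (T x))| ≤ _
    rw [abs_le]
    push_cast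
    rcases le_total 0 (mxS T ψ n (T x)) with h | h
    · rw [max_eq_right h]; constructor <;> nlinarith
    · rw [max_eq_left h]; constructor <;> nlinarith

theorem measurable_mxS (hT : Measurable T) {ψ : X → ℝ} (hψ : Measurable ψ) (n : ℕ) :
    Measurable (mxS T ψ n) := by
  induction n with
  | zero => exact hψ
  | succ n ih => exact hψ.add (measurable_const.max (ih.comp hT))

theorem integrable_of_bdd {g : X → ℝ} (hg : Measurable g) {C : ℝ} (hC : ∀ x, |g x| ≤ C)
    (ν : Measure X) [IsFiniteMeasure ν] : Integrable g ν :=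
  (integrable_const C).mono' hg.aestronglyMeasurable (Eventually.of_forall hC)

/-- The maximal ergodic lemma. -/
theorem maximal (hT : MeasurePreserving T μ μ) {ψ : X → ℝ} (hψ : Measurable ψ) {C : ℝ}
    (hC : ∀ x, |ψ x| ≤ C) {A : Set X} (hA : MeasurableSet A) (hinv : T ⁻¹' A = A)
    (h : ∀ x ∈ A, ∃ n, 0 ≤ birkhoffSum T ψ (n + 1) x) : 0 ≤ ∫ x in A, ψ x ∂μ := by
  have hTA : MeasurePreserving T (μ.restrict A) (μ.restrict A) := by
    have := hT.restrict_preimage hA
    rwa [hinv] at this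
  have hm := measurable_mxS hT.measurable hψ
  have hint : ∀ n, Integrable (mxS T ψ n) (μ.restrict A) := fun n =>
    integrable_of_bdd (hm n) (abs_mxS hC n) _
  have hint' : ∀ n, Integrable (fun x => mxS T ψ n (T x)) (μ.restrict A) := fun n =>
    integrable_of_bdd ((hm n).comp hT.measurable) (fun x => abs_mxS hC n (T x)) _
  have hcomp : ∀ n, ∫ x in A, mxS T ψ n (T x) ∂μ = ∫ x in A, mxS T ψ n x ∂μ := by
    intro n
    have := integral_map (μ := μ.restrict A) hTA.measurable.aemeasurable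
      (f := mxS T ψ n) (hm n).aestronglyMeasurable
    rw [hTA.map_eq] at this
    exact this.symm
  have hpos : ∀ n, 0 ≤ ∫ x in A, (mxS T ψ (n + 1) x - mxS T ψ n (T x)) ∂μ := by
    intro n
    rw [integral_sub (hint _) (hint' _), hcomp, sub_nonneg]
    exact integral_mono (hint _) (hint _) (mxS_mono ψ n)
  have hlow : ∀ n x, -C ≤ mxS T ψ n x := fun n x =>
    (abs_le.1 (hC x)).1.trans (monotone_nat_of_le_succ (fun n => mxS_mono (T := T) ψ n x)
      (Nat.zero_le n))
  have hlim : Tendsto (fun n => ∫ x in A, (mxS T ψ (n + 1) x - mxS T ψ n (T x)) ∂μ) atTop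
      (𝓝 (∫ x in A, ψ x ∂μ)) := by
    refine tendsto_integral_of_dominated_convergence (fun _ => 2 * C)
      (fun n => ((hint _).sub (hint' _)).aestronglyMeasurable) (integrable_const _)
      (fun n => Eventually.of_forall fun x => ?_) ?_
    · have h1 := abs_le.1 (hC x)
      have h2 := hlow n (T x)
      change |ψ x + max 0 (mxS T ψ n (T x)) - _| ≤ _
      rw [abs_le]
      rcases le_total 0 (mxS T ψ n (T x)) with h | h
      · rw [max_eq_right h]; constructor <;> linarith
      · rw [max_eq_left h]; constructor <;> linarith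
    · refine (ae_restrict_iff' hA).2 (Eventually.of_forall fun x hx => ?_)
      have hx' : T x ∈ A := by
        rw [← hinv] at hx
        exact hx
      obtain ⟨n, hn⟩ := h _ hx'
      refine tendsto_const_nhds.congr' ?_
      filter_upwards [eventually_ge_atTop n] with m hm
      have h1 : 0 ≤ mxS T ψ m (T x) := (hn.trans (le_mxS ψ n _)).trans
        (monotone_nat_of_le_succ (fun n => mxS_mono (T := T) ψ n (T x)) hm)
      change _ = ψ x + max 0 (mxS T ψ m (T x)) - _
      rw [max_eq_right h1]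
      ring
  exact ge_of_tendsto' hlim hpos

/-- The points where the Birkhoff sums are unbounded above. -/
def Unb (T : X → X) (ψ : X → ℝ) : Set X := {x | ∀ K : ℕ, ∃ n, (K : ℝ) ≤ birkhoffSum T ψ n x}

theorem measurable_bs (hT : Measurable T) {ψ : X → ℝ} (hψ : Measurable ψ) (n : ℕ) :
    Measurable (birkhoffSum T ψ n) := by
  unfold birkhoffSum
  exact Finset.measurable_sum _ fun i _ => hψ.comp (hT.iterate i)

theorem measurableSet_Unb (hT : Measurable T) {ψ : X → ℝ} (hψ : Measurable ψ) :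
    MeasurableSet (Unb T ψ) := by
  have : Unb T ψ = ⋂ K : ℕ, ⋃ n, {x | (K : ℝ) ≤ birkhoffSum T ψ n x} := by
    ext x
    simp [Unb]
  rw [this]
  exact MeasurableSet.iInter fun K => MeasurableSet.iUnion fun n =>
    measurableSet_le measurable_const (measurable_bs hT hψ n)

omit [MeasurableSpace X] in
theorem preimage_Unb (ψ : X → ℝ) : T ⁻¹' Unb T ψ = Unb T ψ := by
  ext x
  obtain ⟨L, hL⟩ := exists_nat_gt |ψ x|
  have h1 := abs_lt.1 hL
  constructor
  · intro h K
    obtain ⟨n, hn⟩ := h (K + L)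
    refine ⟨n + 1, ?_⟩
    rw [birkhoffSum_succ']
    push_cast at hn
    linarith
  · intro h K
    obtain ⟨n, hn⟩ := h (K + L)
    push_cast at hn
    have h2 : (0 : ℝ) ≤ K := Nat.cast_nonneg K
    cases n with
    | zero =>
      rw [birkhoffSum_zero] at hn
      linarith
    | succ n =>
      rw [birkhoffSum_succ'] at hn
      exact ⟨n, by linarith⟩

theorem maximal' (hT : MeasurePreserving T μ μ) {ψ : X → ℝ} (hψ : Measurable ψ) {C : ℝ}
    (hC : ∀ x, |ψ x| ≤ C) {A : Set X} (hA : MeasurableSet A) (hinv : T ⁻¹' A = A)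
    (h : A ⊆ Unb T ψ) : 0 ≤ ∫ x in A, ψ x ∂μ := by
  refine maximal hT hψ hC hA hinv fun x hx => ?_
  obtain ⟨n, hn⟩ := h hx 1
  cases n with
  | zero =>
    rw [birkhoffSum_zero] at hn
    norm_num at hn
  | succ n => exact ⟨n, le_trans (by norm_num) hn⟩

omit [MeasurableSpace X] in
theorem bs_affine (φ : X → ℝ) (s c : ℝ) (n : ℕ) (x : X) :
    birkhoffSum T (fun x => s * φ x + c) n x = s * birkhoffSum T φ n x + n * c := by
  simp [birkhoffSum, Finset.sum_add_distrib, Finset.mul_sum]

omit [MeasurableSpace X] in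
theorem mem_Unb {φ : X → ℝ} {s c δ : ℝ} (hδ : 0 < δ) {x : X}
    (h : ∃ᶠ n : ℕ in atTop, δ ≤ s * (birkhoffSum T φ n x / n) + c) :
    x ∈ Unb T (fun x => s * φ x + c) := by
  intro K
  obtain ⟨N, hN⟩ := exists_nat_gt (K / δ)
  obtain ⟨n, h1, h2⟩ := (h.and_eventually (eventually_gt_atTop N)).exists
  refine ⟨n, ?_⟩
  have h3 : (N : ℝ) < n := by exact_mod_cast h2
  have h4 : (0 : ℝ) < n := lt_of_le_of_lt (Nat.cast_nonneg N) h3
  rw [bs_affine]
  rw [div_lt_iff₀ hδ] at hN
  have h5 : s * birkhoffSum T φ n x + n * c = n * (s * (birkhoffSum T φ n x / n) + c) := by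
    field_simp
  rw [h5]
  nlinarith

/-- If a bounded function has negative integral over every invariant set of positive measure, then
its Birkhoff averages converge almost everywhere to a negative limit. -/
theorem birkhoff_neg (hT : MeasurePreserving T μ μ) {φ : X → ℝ} (hφ : Measurable φ) {C : ℝ}
    (hC : ∀ x, |φ x| ≤ C)
    (hneg : ∀ A, MeasurableSet A → T ⁻¹' A = A → 0 ≤ ∫ x in A, φ x ∂μ → μ A = 0) :
    ∀ᵐ x ∂μ, ∃ c < 0, Tendsto (fun n : ℕ => birkhoffSum T φ n x / n) atTop (𝓝 c) := by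
  have hm : ∀ s c : ℝ, Measurable (fun x => s * φ x + c) := fun s c =>
    (hφ.const_mul s).add_const c
  have key : ∀ (s c : ℝ) (A : Set X), MeasurableSet A → T ⁻¹' A = A →
      A ⊆ Unb T (fun x => s * φ x + c) → 0 ≤ s * ∫ x in A, φ x ∂μ + μ.real A * c := by
    intro s c A hA hinv h
    have h1 := maximal' hT (hm s c) (C := |s| * C + |c|) (fun x => (abs_add_le _ _).trans (by
      rw [abs_mul]
      gcongr
      exact hC x)) hA hinv h
    rw [integral_add ((integrable_of_bdd hφ hC _).const_mul s) (integrable_const c),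
      integral_const_mul, setIntegral_const, smul_eq_mul] at h1
    exact h1
  have h1 : ∀ᵐ x ∂μ, ∀ a b : ℚ, a < b → ¬ (x ∈ Unb T (fun x => 1 * φ x + (-b : ℝ)) ∧
      x ∈ Unb T (fun x => -1 * φ x + (a : ℝ))) := by
    refine ae_all_iff.2 fun a => ae_all_iff.2 fun b => ?_
    by_cases hab : a < b
    · simp only [hab, true_imp_iff]
      have hA := (measurableSet_Unb hT.measurable (hm 1 (-b))).inter
        (measurableSet_Unb hT.measurable (hm (-1) a))
      have hinv : T ⁻¹' (Unb T (fun x => 1 * φ x + (-b : ℝ)) ∩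
          Unb T (fun x => -1 * φ x + (a : ℝ))) = Unb T (fun x => 1 * φ x + (-b : ℝ)) ∩
          Unb T (fun x => -1 * φ x + (a : ℝ)) := by
        rw [preimage_inter, preimage_Unb, preimage_Unb]
      have h2 := key _ _ _ hA hinv inter_subset_left
      have h3 := key _ _ _ hA hinv inter_subset_right
      have h4 : (a : ℝ) < b := by exact_mod_cast hab
      have h5 := measureReal_nonneg (μ := μ) (s := Unb T (fun x => 1 * φ x + (-b : ℝ)) ∩
          Unb T (fun x => -1 * φ x + (a : ℝ)))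
      have h6 : μ.real (Unb T (fun x => 1 * φ x + (-b : ℝ)) ∩
          Unb T (fun x => -1 * φ x + (a : ℝ))) = 0 := by nlinarith
      rw [measureReal_eq_zero_iff] at h6
      exact measure_eq_zero_iff_ae_notMem.1 h6
    · simp [hab]
  have h2 : ∀ᵐ x ∂μ, x ∉ ⋂ m : ℕ, Unb T (fun x => 1 * φ x + 1 / ((m : ℝ) + 1)) := by
    have hA : MeasurableSet (⋂ m : ℕ, Unb T (fun x => 1 * φ x + 1 / ((m : ℝ) + 1))) :=
      MeasurableSet.iInter fun m => measurableSet_Unb hT.measurable (hm _ _)
    have hinv : T ⁻¹' (⋂ m : ℕ, Unb T (fun x => 1 * φ x + 1 / ((m : ℝ) + 1))) =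
        ⋂ m : ℕ, Unb T (fun x => 1 * φ x + 1 / ((m : ℝ) + 1)) := by
      rw [preimage_iInter]
      simp only [preimage_Unb]
    refine measure_eq_zero_iff_ae_notMem.1 (hneg _ hA hinv ?_)
    have h3 := fun m : ℕ => key _ _ _ hA hinv (iInter_subset _ m)
    have h4 := (tendsto_one_div_add_atTop_nhds_zero_nat.const_mul
      (μ.real (⋂ m : ℕ, Unb T (fun x => 1 * φ x + 1 / ((m : ℝ) + 1))))).const_add
      (1 * ∫ x in (⋂ m : ℕ, Unb T (fun x => 1 * φ x + 1 / ((m : ℝ) + 1))), φ x ∂μ)
    simpa using ge_of_tendsto' h4 h3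
  filter_upwards [h1, h2] with x h1 h2
  have hb : ∀ n : ℕ, |birkhoffSum T φ n x / n| ≤ C := by
    intro n
    have h0 : 0 ≤ C := (abs_nonneg _).trans (hC x)
    rcases Nat.eq_zero_or_pos n with rfl | hn
    · simpa using h0
    · have h4 : (0 : ℝ) < n := by exact_mod_cast hn
      rw [abs_div, Nat.abs_cast, div_le_iff₀ h4]
      refine (Finset.abs_sum_le_sum_abs _ _).trans ?_
      refine (Finset.sum_le_sum fun i _ => hC _).trans ?_
      simp [mul_comm]
  obtain ⟨c, hc⟩ := tendsto_of_no_upcrossings (u := fun n : ℕ => birkhoffSum T φ n x / n)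
    (f := atTop) (s := univ) dense_univ (by
      rintro a - b - hab ⟨h3, h4⟩
      obtain ⟨a', h5, h6⟩ := exists_rat_btwn hab
      obtain ⟨b', h7, h8⟩ := exists_rat_btwn h6
      refine h1 a' b' (by exact_mod_cast h7) ⟨mem_Unb (sub_pos.2 h8) (h4.mono fun n hn => ?_),
        mem_Unb (sub_pos.2 h5) (h3.mono fun n hn => ?_)⟩ <;> linarith)
    (isBoundedUnder_of ⟨C, fun n => (abs_le.1 (hb n)).2⟩)
    (isBoundedUnder_of ⟨-C, fun n => (abs_le.1 (hb n)).1⟩)
  refine ⟨c, ?_, hc⟩
  by_contra h3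
  refine h2 (mem_iInter.2 fun m => mem_Unb (δ := 1 / ((m : ℝ) + 1) / 2) (by positivity) ?_)
  have h4 : -(1 / ((m : ℝ) + 1) / 2) < c := lt_of_lt_of_le (neg_neg_of_pos (by positivity))
    (not_lt.1 h3)
  refine ((hc.eventually (lt_mem_nhds h4)).mono fun n hn => ?_).frequently
  linarith

end Pool.Agent.H408Z.NUH
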