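import Mathlib

/-!
# Area preserving endomorphisms of the two-torus
-/

open MeasureTheory Filter Topology

namespace Pool.Agent.H408Z.NUH

/-- The torus `ℝ²/ℤ²`; its `volume` is the Lebesgue (Haar) probability measure. -/
abbrev T2 : Type := UnitAddCircle × UnitAddCircle

/-- The covering map `ℝ² → ℝ²/ℤ²`. -/
def proj (p : ℝ × ℝ) : T2 := ((p.1 : UnitAddCircle), (p.2 : UnitAddCircle))

/-- An element of `End¹_μ(𝕋²)`: a non-invertible `C¹` local diffeomorphism of the torus that
preserves Lebesgue measure, given together with a lift to the plane. -/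
structure Endo where
  /-- the map of the torus -/
  map : T2 → T2
  /-- a lift to the plane -/
  lift : ℝ × ℝ → ℝ × ℝ
  isLift : ∀ p, proj (lift p) = map (proj p)
  contDiff : ContDiff ℝ 1 lift
  localDiffeo : ∀ p, Function.Bijective (fderiv ℝ lift p)
  nonInvertible : ¬ Function.Injective map
  preserving : MeasurePreserving map volume volume

/-- The conorm `m(A)`, the infimum of `‖A v‖` over the unit vectors `v`. -/
noncomputable def conorm (A : ℝ × ℝ →L[ℝ] ℝ × ℝ) : ℝ := sInf ((fun v => ‖A v‖) '' {v | ‖v‖ = 1})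

/-- Non-uniform hyperbolicity: for almost every point `x` the two limits `χ⁺(x)`, `χ⁻(x)` exist
and `χ⁻(x) < 0 < χ⁺(x)`. The derivative of `fⁿ` at `x` is computed at a point `p` above `x`. -/
def Endo.IsNUH (f : Endo) : Prop :=
  ∀ᵐ x : T2, ∀ p, proj p = x → ∃ cp cm : ℝ,
    Tendsto (fun n : ℕ => Real.log ‖fderiv ℝ (f.lift^[n]) p‖ / n) atTop (𝓝 cp) ∧
    Tendsto (fun n : ℕ => Real.log (conorm (fderiv ℝ (f.lift^[n]) p)) / n) atTop (𝓝 cm) ∧
    cm < 0 ∧ 0 < cp

/-- Topological transitivity: some forward orbit is dense. -/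
def Endo.Transitive (f : Endo) : Prop := ∃ x : T2, DenseRange fun n : ℕ => f.map^[n] x

/-- `g` is in the `C¹` neighbourhood of `f` of radius `ε`. -/
def C1Close (ε : ℝ) (f g : Endo) : Prop :=
  ∀ p, dist (f.map (proj p)) (g.map (proj p)) < ε ∧ ‖fderiv ℝ f.lift p - fderiv ℝ g.lift p‖ < ε

/-- `f` is stably ergodic: every map of class `C²` in some `C¹` neighbourhood of `f` is
ergodic. -/
def Endo.StablyErgodic (f : Endo) : Prop :=
  ∃ ε > 0, ∀ g : Endo, C1Close ε f g → ContDiff ℝ 2 g.lift → Ergodic g.map volume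

end Pool.Agent.H408Z.NUH
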