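import Pool.Agent.H408Z.NUH.Tor

/-!
# Non-uniform hyperbolicity
-/

open MeasureTheory Filter Topology Set Real
open scoped ContDiff

namespace Pool.Agent.H408Z.NUH

/-- The horizontal derivative in the plane. -/
noncomputable def aa (θ : ℝ) (p : ℝ × ℝ) : ℝ := (1 + ux θ (GG θ p.1 p.2) p.2)⁻¹

theorem aa_pos (θ : ℝ) (p : ℝ × ℝ) : 0 < aa θ p :=
  inv_pos.2 (by linarith [ww_pos θ (GG θ p.1 p.2) p.2])

theorem aa_le (θ : ℝ) (p : ℝ × ℝ) : aa θ p ≤ 2 := by
  have h := ww_pos θ (GG θ p.1 p.2) p.2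
  rw [aa, inv_le_comm₀ (by linarith) (by norm_num)]
  linarith

theorem le_aa (θ : ℝ) (p : ℝ × ℝ) : 1 / 2 ≤ aa θ p := by
  have h := ww_pos θ (GG θ p.1 p.2) p.2
  have h2 := (abs_le.1 (abs_ux_le θ (GG θ p.1 p.2) p.2)).2
  rw [aa, le_inv_comm₀ (by norm_num) (by linarith)]
  linarith

theorem aa_per (θ : ℝ) (p : ℝ × ℝ) (m n : ℤ) : aa θ (p + ((m : ℝ), (n : ℝ))) = aa θ p := by
  simp only [aa, Prod.fst_add, Prod.snd_add, GG_add_int, ux_add_int]

theorem continuous_aa (θ : ℝ) : Continuous (aa θ) := by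
  have h : Continuous fun p : ℝ × ℝ => GG θ p.1 p.2 := (contDiff_FF θ).continuous.fst
  refine Continuous.inv₀ ?_ fun p => by linarith [ww_pos θ (GG θ p.1 p.2) p.2]
  unfold ux
  fun_prop

/-- The logarithm of the horizontal derivative on the torus. -/
noncomputable def ph (θ : ℝ) : T2 → ℝ := desc fun p => Real.log (aa θ p)

theorem ph_proj (θ : ℝ) (p : ℝ × ℝ) : ph θ (proj p) = Real.log (aa θ p) :=
  desc_proj (W := fun p => Real.log (aa θ p)) (fun p m n => by rw [aa_per]) p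

theorem continuous_ph (θ : ℝ) : Continuous (ph θ) :=
  continuous_desc (W := fun p => Real.log (aa θ p)) (fun p m n => by rw [aa_per])
    ((continuous_aa θ).log fun p => (aa_pos θ p).ne')

theorem abs_ph_le (θ : ℝ) (z : T2) : |ph θ z| ≤ 1 := by
  obtain ⟨p, rfl⟩ := proj_quot.surjective z
  rw [ph_proj, abs_le]
  have h1 := Real.log_le_sub_one_of_pos (aa_pos θ p)
  have h2 := Real.one_sub_inv_le_log_of_pos (aa_pos θ p)
  have h3 : (aa θ p)⁻¹ ≤ 2 := by
    rw [inv_le_comm₀ (aa_pos θ p) (by norm_num)]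
    linarith [le_aa θ p]
  constructor <;> linarith [aa_le θ p]

theorem ph_hh (θ : ℝ) (z : T2) : ph θ (hh θ z) = -Real.log (1 + vv θ z) := by
  obtain ⟨p, rfl⟩ := proj_quot.surjective z
  rw [hh_proj, ph_proj, vv_proj]
  simp [aa, HH, GG_left]

theorem ent_pos {v : ℝ} (h : |v| ≤ 1 / 2) (hv : v ≠ 0) : 0 < (1 + v) * Real.log (1 + v) - v := by
  have h1 : 0 < 1 + v := by linarith [(abs_le.1 h).1]
  have h2 := Real.log_lt_sub_one_of_pos (inv_pos.2 h1) (by
    intro h3
    rw [inv_eq_one] at h3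
    exact hv (by linarith))
  rw [Real.log_inv] at h2
  have h3 := mul_lt_mul_of_pos_left h2 h1
  rw [mul_sub, mul_inv_cancel₀ h1.ne'] at h3
  linarith

theorem ent_nonneg {v : ℝ} (h : |v| ≤ 1 / 2) : 0 ≤ (1 + v) * Real.log (1 + v) - v := by
  by_cases hv : v = 0
  · simp [hv]
  · exact (ent_pos h hv).le

theorem ent_le {v : ℝ} (h : |v| ≤ 1 / 2) : |(1 + v) * Real.log (1 + v) - v| ≤ 2 := by
  rw [abs_of_nonneg (ent_nonneg h)]
  have h0 := abs_le.1 h
  have h1 : 0 < 1 + v := by linarith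
  have h2 := Real.log_le_sub_one_of_pos h1
  nlinarith

theorem vv_both {z : T2} (h1 : vv 0 z = 0) (h2 : vv 0 (tr (1 / 4) z) = 0) : z.1 = 0 := by
  obtain ⟨p, rfl⟩ := proj_quot.surjective z
  rw [tr_proj, vv_proj] at h2
  rw [vv_proj] at h1
  have h3 : π * p.1 + 2 * π * (p.2 + 1 / 4) = (π * p.1 + 2 * π * p.2) + π / 2 := by ring
  simp only [ux, h3, sin_add_pi_div_two, cos_add_pi_div_two, mul_zero, sin_zero] at h1 h2
  have h4 := (mul_eq_zero.1 h1).resolve_left (by positivity)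
  have h5 := (mul_eq_zero.1 h2).resolve_left (by positivity)
  have h6 := sin_sq_add_cos_sq (π * p.1 + 2 * π * p.2)
  have h7 := sin_sq_add_cos_sq (π * p.1)
  set s := sin (π * p.1) with hs
  set c := cos (π * p.1)
  set S := sin (π * p.1 + 2 * π * p.2)
  set C := cos (π * p.1 + 2 * π * p.2)
  have h8 : s ^ 3 = 0 := by linear_combination C * h4 - S * h5 - s ^ 3 * h6
  have h9 : s = 0 := pow_eq_zero_iff (by norm_num) |>.1 h8
  rw [hs, sin_eq_zero_iff] at h9
  obtain ⟨n, hn⟩ := h9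
  have h10 : p.1 = 0 + n := by
    rw [zero_add]
    exact mul_left_cancel₀ pi_ne_zero (by linarith)
  change ((p.1 : ℝ) : UnitAddCircle) = 0
  rw [h10, coe_add_int]
  rfl

theorem neg_on_invariant (A : Set T2) (hA : MeasurableSet A) (hinv : ff 0 ⁻¹' A = A)
    (h : 0 ≤ ∫ z in A, ph 0 z) : volume A = 0 := by
  have hv := (continuous_vv 0).measurable
  set J : T2 → ℝ := fun z => (1 + vv 0 z) * Real.log (1 + vv 0 z) - vv 0 z with hJ
  have hJm : Measurable J := ((hv.const_add 1).mul (hv.const_add 1).log).sub hv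
  have hi : Measurable fun z => A.indicator (1 : T2 → ℝ) (EE z) :=
    (measurable_one.indicator hA).comp EE_pres.measurable
  have h2 : ∀ z, |A.indicator (1 : T2 → ℝ) z| ≤ 1 := by
    intro z
    by_cases h : z ∈ A <;> simp [h]
  have h1 : ∀ z, (1 + vv 0 z) * A.indicator (ph 0) (hh 0 z) =
      -(J z * A.indicator 1 (EE z)) - vv 0 z * A.indicator 1 (EE z) := by
    intro z
    have h3 : hh 0 z ∈ A ↔ EE z ∈ A := by
      rw [← ff_hh 0 z]
      conv_lhs => rw [← hinv]
      rfl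
    by_cases h : EE z ∈ A
    · simp [indicator, h3, h, ph_hh, hJ]
    · simp [indicator, h3, h]
  have hint : Integrable fun z => J z * A.indicator 1 (EE z) :=
    integrable_of_bdd (hJm.mul hi) (C := 2 * 1) (fun z => by
      rw [Pi.mul_apply, abs_mul]
      exact mul_le_mul (ent_le (abs_vv_le 0 z)) (h2 _) (abs_nonneg _) (by norm_num)) _
  have hnn : ∀ z, 0 ≤ J z * A.indicator (1 : T2 → ℝ) (EE z) := fun z =>
    mul_nonneg (ent_nonneg (abs_vv_le 0 z)) (indicator_nonneg (fun _ _ => zero_le_one) _)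
  rw [← integral_indicator hA, integral_hh 0 ((continuous_ph 0).measurable.indicator hA)] at h
  simp only [h1] at h
  have hint2 : Integrable fun z => vv 0 z * A.indicator 1 (EE z) := integrable_of_bdd (hv.mul hi)
    (fun z => abs_mul_le_one ((abs_vv_le 0 z).trans (by norm_num)) (h2 _)) _
  have hint3 : Integrable fun z => -(J z * A.indicator 1 (EE z)) := hint.neg
  rw [integral_sub hint3 hint2,
    integral_vv 0 (A.indicator 1), sub_zero, integral_neg] at h
  have h3 : ∫ z, J z * A.indicator 1 (EE z) = 0 := le_antisymm (by linarith) (integral_nonneg hnn)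
  have h4 := (integral_eq_zero_iff_of_nonneg hnn hint).1 h3
  have : (volume : Measure T2).IsAddRightInvariant := Measure.prod.instIsAddRightInvariant
  have h5 := (measurePreserving_add_right (volume : Measure T2)
    (proj (0, 1 / 4))).quasiMeasurePreserving.ae h4
  have h6 : ∀ᵐ z : T2, z.1 ≠ 0 := by
    have : ∀ᵐ x : UnitAddCircle, x ≠ 0 := by
      rw [ae_iff]
      simpa using AddCircle.volume_closedBall 1 (x := 0) 0
    exact Measure.quasiMeasurePreserving_fst.ae this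
  rw [← EE_pres.measure_preimage hA.nullMeasurableSet, measure_eq_zero_iff_ae_notMem]
  filter_upwards [h4, h5, h6] with z h4 h5 h6 hz
  have h7 : EE (z + proj (0, 1 / 4)) = EE z := by simpa [tr] using EE_tr 1 z
  have hz' : EE z ∈ A := hz
  simp only [h7, Pi.zero_apply, indicator_of_mem hz', Pi.one_apply, mul_one] at h4 h5
  refine h6 (vv_both ?_ ?_)
  · by_contra h8
    exact (ent_pos (abs_vv_le 0 z) h8).ne' h4
  · by_contra h8
    exact (ent_pos (abs_vv_le 0 _) h8).ne' h5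

theorem fderiv_iter (θ : ℝ) (p : ℝ × ℝ) (n : ℕ) : ∃ a b : ℝ, 0 < a ∧ a ≤ 2 ^ n ∧ |b| ≤ 4 ^ n ∧
    Real.log a = birkhoffSum (ff θ) (ph θ) n (proj p) ∧
    ∀ v : ℝ × ℝ, fderiv ℝ (FF θ)^[n] p v = (a * v.1 + b * v.2, 4 ^ n * v.2) := by
  have hd : Differentiable ℝ (FF θ) := (contDiff_FF θ).differentiable (by simp)
  induction n with
  | zero => exact ⟨1, 0, one_pos, by simp, by simp, by simp, fun v => by simp⟩
  | succ n ih =>
    obtain ⟨a, b, h1, h2, h3, h4, h5⟩ := ih
    obtain ⟨b', h6, h7⟩ := exists_fderiv_FF θ ((FF θ)^[n] p)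
    have h8 := aa_pos θ ((FF θ)^[n] p)
    have h9 := aa_le θ ((FF θ)^[n] p)
    refine ⟨aa θ ((FF θ)^[n] p) * a, aa θ ((FF θ)^[n] p) * b + b' * 4 ^ n, mul_pos h8 h1, ?_, ?_,
      ?_, fun v => ?_⟩
    · rw [pow_succ']
      exact mul_le_mul h9 h2 h1.le (by norm_num)
    · refine (abs_add_le _ _).trans ?_
      rw [abs_mul, abs_mul, abs_of_pos h8, abs_of_pos (by positivity : (0 : ℝ) < 4 ^ n), pow_succ']
      have h10 : (0 : ℝ) < 4 ^ n := by positivity
      nlinarith [abs_nonneg b]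
    · rw [Real.log_mul h8.ne' h1.ne', birkhoffSum_succ, h4, ff_iterate, ph_proj, add_comm]
    · rw [Function.iterate_succ', fderiv_comp p (hd _) ((hd.iterate n) p),
        ContinuousLinearMap.comp_apply, h5, h7]
      refine Prod.ext ?_ ?_
      · simp only [aa]
        ring
      · simp only
        ring

theorem tendsto_of_close {s t : ℕ → ℝ} {c K : ℝ} (ht : Tendsto (fun n : ℕ => t n / n) atTop (𝓝 c))
    (h : ∀ n, |s n - t n| ≤ K) : Tendsto (fun n : ℕ => s n / n) atTop (𝓝 c) := by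
  have h1 : Tendsto (fun n : ℕ => (s n - t n) / n) atTop (𝓝 0) := by
    refine squeeze_zero_norm (fun n => ?_) (tendsto_const_div_atTop_nhds_zero_nat K)
    rw [Real.norm_eq_abs, abs_div, Nat.abs_cast]
    gcongr
    exact h n
  have h2 := h1.add ht
  rw [zero_add] at h2
  exact h2.congr fun n => by ring

theorem abs_log_sub {x y : ℝ} (hy : 0 < y) (h1 : y / 2 ≤ x) (h2 : x ≤ 2 * y) :
    |Real.log x - Real.log y| ≤ 1 := by
  have hx : 0 < x := by linarith
  have h3 := Real.log_le_sub_one_of_pos (div_pos hx hy)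
  have h4 := Real.log_le_sub_one_of_pos (div_pos hy hx)
  rw [Real.log_div hx.ne' hy.ne'] at h3
  rw [Real.log_div hy.ne' hx.ne'] at h4
  have h5 : x / y ≤ 2 := by rwa [div_le_iff₀ hy]
  have h6 : y / x ≤ 2 := by
    rw [div_le_iff₀ hx]
    linarith
  rw [abs_le]
  constructor <;> linarith

theorem tri_bounds {L : ℝ × ℝ →L[ℝ] ℝ × ℝ} {a b d : ℝ} (ha : 0 < a) (had : a ≤ d) (hb : |b| ≤ d)
    (h : ∀ v : ℝ × ℝ, L v = (a * v.1 + b * v.2, d * v.2)) :
    d ≤ ‖L‖ ∧ ‖L‖ ≤ 2 * d ∧ a / 2 ≤ conorm L ∧ conorm L ≤ a := by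
  have hd : 0 < d := ha.trans_le had
  have hn : ∀ v : ℝ × ℝ, ‖L v‖ = max |a * v.1 + b * v.2| (d * |v.2|) := by
    intro v
    rw [h, Prod.norm_mk, Real.norm_eq_abs, Real.norm_eq_abs, abs_mul d, abs_of_pos hd]
  refine ⟨?_, L.opNorm_le_bound (by positivity) fun v => ?_, ?_, ?_⟩
  · have h1 := L.le_opNorm (0, 1)
    rw [hn] at h1
    simp only [mul_zero, mul_one, zero_add, abs_one, Prod.norm_mk, norm_zero, norm_one,
      zero_le_one, max_eq_right] at h1
    exact (le_max_right _ _).trans h1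
  · have h1 : |v.1| ≤ ‖v‖ := norm_fst_le v
    have h2 : |v.2| ≤ ‖v‖ := norm_snd_le v
    rw [hn]
    refine max_le ((abs_add_le _ _).trans ?_) ?_
    · rw [abs_mul, abs_mul, abs_of_pos ha]
      nlinarith [abs_nonneg v.1, abs_nonneg v.2, abs_nonneg b]
    · nlinarith [abs_nonneg v.2]
  · refine le_csInf ⟨_, (1, 0), by simp, rfl⟩ ?_
    rintro _ ⟨v, hv, rfl⟩
    have h1 : max |v.1| |v.2| = 1 := hv
    dsimp only
    rw [hn]
    have h2 := le_max_left |a * v.1 + b * v.2| (d * |v.2|)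
    have h3 := le_max_right |a * v.1 + b * v.2| (d * |v.2|)
    have h4 : a * |v.1| ≤ |a * v.1 + b * v.2| + |b| * |v.2| := by
      have h5 := abs_sub (a * v.1 + b * v.2) (b * v.2)
      rwa [add_sub_cancel_right, abs_mul, abs_mul, abs_of_pos ha] at h5
    rcases max_eq_iff.1 h1 with h5 | h5
    · rw [h5.1] at h4
      nlinarith [abs_nonneg v.2]
    · have h6 : d * |v.2| = d := by rw [h5.1, mul_one]
      linarith
  · refine csInf_le ⟨0, ?_⟩ ⟨(1, 0), by simp, ?_⟩
    · rintro _ ⟨v, -, rfl⟩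
      exact norm_nonneg _
    · dsimp only
      rw [hn]
      simp [abs_of_pos ha, ha.le]

theorem isNUH : (endo 0).IsNUH := by
  have h := birkhoff_neg (ff_pres 0) (continuous_ph 0).measurable (abs_ph_le 0) neg_on_invariant
  filter_upwards [h] with x ⟨c, hc, hx⟩ p hp
  subst hp
  choose a b h1 h2 h3 h4 h5 using fderiv_iter 0 p
  have hb := fun n => tri_bounds (h1 n) ((h2 n).trans (pow_le_pow_left₀ (by norm_num)
    (by norm_num : (2 : ℝ) ≤ 4) n)) (h3 n) (h5 n)
  refine ⟨Real.log 4, c, ?_, ?_, hc, Real.log_pos (by norm_num)⟩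
  · refine tendsto_of_close (t := fun n => Real.log (4 ^ n)) (K := 1) ?_ fun n => ?_
    · refine tendsto_const_nhds.congr' ?_
      filter_upwards [eventually_gt_atTop 0] with n hn
      have : (n : ℝ) ≠ 0 := by positivity
      rw [Real.log_pow]
      field_simp
    · have h6 : (0 : ℝ) < 4 ^ n := by positivity
      exact abs_log_sub h6 (le_trans (by linarith) (hb n).1) (hb n).2.1
  · refine tendsto_of_close (K := 1) hx fun n => ?_
    rw [← h4]
    exact abs_log_sub (h1 n) (hb n).2.2.1 ((hb n).2.2.2.trans (by linarith [h1 n]))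

end Pool.Agent.H408Z.NUH
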