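import Pool.Agent.H408Z.NUH.Defs

/-!
# The family of maps in the plane
-/

open MeasureTheory Filter Topology Set Real
open scoped ContDiff

namespace Pool.Agent.H408Z.NUH

/-- The displacement function. -/
noncomputable def uu (θ x y : ℝ) : ℝ :=
  (1 / 100) * ((sin (π * x) ^ 2 - sin (π * θ) ^ 2) * sin (π * x) * sin (π * x + 2 * π * y))

/-- Its derivative in the first variable. -/
noncomputable def ux (θ x y : ℝ) : ℝ :=
  (π / 100) * ((3 * sin (π * x) ^ 2 - sin (π * θ) ^ 2) * cos (π * x) * sin (π * x + 2 * π * y) +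
    (sin (π * x) ^ 2 - sin (π * θ) ^ 2) * sin (π * x) * cos (π * x + 2 * π * y))

theorem hasDerivAt_uu (θ x y : ℝ) : HasDerivAt (fun x => uu θ x y) (ux θ x y) x := by
  have h1 : HasDerivAt (fun x => π * x) π x := by simpa using (hasDerivAt_id x).const_mul π
  have h2 := ((((h1.sin.pow 2).sub_const (sin (π * θ) ^ 2)).mul h1.sin).mul
    (h1.add_const (2 * π * y)).sin).const_mul (1 / 100)
  refine h2.congr_deriv ?_
  simp only [ux, Pi.mul_apply, Pi.pow_apply]
  push_cast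
  ring

theorem contDiff_uu : ContDiff ℝ ∞ (fun q : ℝ × ℝ × ℝ => uu q.1 q.2.1 q.2.2) := by
  unfold uu
  fun_prop

theorem mul_lip {a b a' b' d K L : ℝ} (ha : |a| ≤ 1) (hb : |b'| ≤ 1) (h1 : |a - a'| ≤ K * d)
    (h2 : |b - b'| ≤ L * d) : |a * b - a' * b'| ≤ (K + L) * d := by
  have : a * b - a' * b' = a * (b - b') + (a - a') * b' := by ring
  rw [this]
  refine (abs_add_le _ _).trans ?_
  rw [abs_mul, abs_mul]
  nlinarith [abs_nonneg a, abs_nonneg b', abs_nonneg (a - a'), abs_nonneg (b - b')]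

theorem abs_mul_le_one {a b : ℝ} (ha : |a| ≤ 1) (hb : |b| ≤ 1) : |a * b| ≤ 1 := by
  rw [abs_mul]
  exact mul_le_one₀ ha (abs_nonneg _) hb

theorem uu_lip {θ x y θ' x' y' d : ℝ} (h1 : |θ - θ'| ≤ d) (h2 : |x - x'| ≤ d) (h3 : |y - y'| ≤ d) :
    |uu θ x y - uu θ' x' y'| ≤ d / 2 := by
  have hd : 0 ≤ d := (abs_nonneg _).trans h1
  have hs : ∀ a b : ℝ, |a - b| ≤ d → |sin (π * a) - sin (π * b)| ≤ 4 * d := by
    intro a b h
    refine (abs_sin_sub_sin_le _ _).trans ?_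
    rw [← mul_sub, abs_mul, abs_of_pos pi_pos]
    nlinarith [pi_le_four, abs_nonneg (a - b), pi_pos]
  have hq : ∀ a b : ℝ, |a - b| ≤ d → |sin (π * a) ^ 2 - sin (π * b) ^ 2| ≤ (4 + 4) * d := by
    intro a b h
    rw [sq, sq]
    exact mul_lip (abs_sin_le_one _) (abs_sin_le_one _) (hs a b h) (hs a b h)
  have hA : ∀ a b : ℝ, |sin a ^ 2 - sin b ^ 2| ≤ 1 := by
    intro a b
    rw [abs_le]
    constructor <;> nlinarith [sin_sq_le_one a, sin_sq_le_one b, sq_nonneg (sin a),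
      sq_nonneg (sin b)]
  have h4 : |(sin (π * x) ^ 2 - sin (π * θ) ^ 2) - (sin (π * x') ^ 2 - sin (π * θ') ^ 2)| ≤
      16 * d := by
    have h5 := abs_le.1 (hq x x' h2)
    have h6 := abs_le.1 (hq θ θ' h1)
    rw [abs_le]
    constructor <;> linarith
  have h5 : |sin (π * x + 2 * π * y) - sin (π * x' + 2 * π * y')| ≤ 12 * d := by
    refine (abs_sin_sub_sin_le _ _).trans ?_
    have : π * x + 2 * π * y - (π * x' + 2 * π * y') = π * ((x - x') + 2 * (y - y')) := by ring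
    rw [this, abs_mul, abs_of_pos pi_pos]
    have h6 : |(x - x') + 2 * (y - y')| ≤ 3 * d := by
      have h7 := abs_le.1 h2
      have h8 := abs_le.1 h3
      rw [abs_le]
      constructor <;> linarith
    nlinarith [pi_le_four, abs_nonneg ((x - x') + 2 * (y - y')), pi_pos]
  have h6 := mul_lip (abs_mul_le_one (hA _ _) (abs_sin_le_one _)) (abs_sin_le_one _)
    (mul_lip (hA _ _) (abs_sin_le_one _) h4 (hs x x' h2)) h5
  unfold uu
  rw [← mul_sub, abs_mul, abs_of_pos (by norm_num : (0 : ℝ) < 1 / 100)]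
  linarith

theorem abs_ux_le (θ x y : ℝ) : |ux θ x y| ≤ 1 / 2 := by
  have h : LipschitzWith (1 / 2 : NNReal) (fun x => uu θ x y) := by
    refine LipschitzWith.of_dist_le_mul fun a b => ?_
    have := uu_lip (θ := θ) (θ' := θ) (x := a) (x' := b) (y := y) (y' := y) (d := |a - b|)
      (by simp) le_rfl (by simp)
    simp only [Real.dist_eq]
    push_cast
    linarith
  have := (hasDerivAt_uu θ x y).le_of_lipschitz h
  simpa using this

theorem uu_add_int (θ x y : ℝ) (m n : ℤ) : uu θ (x + m) (y + n) = uu θ x y := by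
  have h1 : sin (π * (x + m)) = (-1) ^ m * sin (π * x) := by
    rw [mul_add, mul_comm π (m : ℝ), sin_add_int_mul_pi]
  have h2 : sin (π * (x + m) + 2 * π * (y + n)) = (-1) ^ m * sin (π * x + 2 * π * y) := by
    have : π * (x + m) + 2 * π * (y + n) = (π * x + 2 * π * y + m * π) + n * (2 * π) := by ring
    rw [this, sin_add_int_mul_two_pi, sin_add_int_mul_pi]
  have h3 : ((-1 : ℝ) ^ m) ^ 2 = 1 := by
    rw [← zpow_natCast, ← zpow_mul, mul_comm, zpow_mul]
    simp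
  unfold uu
  rw [h1, h2, mul_pow, h3]
  linear_combination (1 / 100) * (sin (π * x) ^ 2 - sin (π * θ) ^ 2) * sin (π * x) *
    sin (π * x + 2 * π * y) * h3

theorem ux_add_int (θ x y : ℝ) (m n : ℤ) : ux θ (x + m) (y + n) = ux θ x y := by
  have h1 := (hasDerivAt_uu θ (x + m) (y + n)).comp_add_const x m
  simp only [uu_add_int] at h1
  exact h1.unique (hasDerivAt_uu θ x y)

theorem uu_add_half (θ x y : ℝ) : uu θ x (y + 1 / 2) = -uu θ x y := by
  have : π * x + 2 * π * (y + 1 / 2) = (π * x + 2 * π * y) + π := by ring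
  unfold uu
  rw [this, sin_add_pi]
  ring

theorem ux_add_half (θ x y : ℝ) : ux θ x (y + 1 / 2) = -ux θ x y := by
  have : π * x + 2 * π * (y + 1 / 2) = (π * x + 2 * π * y) + π := by ring
  unfold ux
  rw [this, sin_add_pi, cos_add_pi]
  ring

theorem uu_zero (θ y : ℝ) : uu θ 0 y = 0 := by simp [uu]

theorem uu_one (θ y : ℝ) : uu θ 1 y = 0 := by simp [uu]

theorem uu_self (θ y : ℝ) : uu θ θ y = 0 := by simp [uu]

/-- The perturbation of the identity of `ℝ³`. -/
noncomputable def pert (q : ℝ × ℝ × ℝ) : ℝ × ℝ × ℝ := (0, uu q.1 q.2.1 q.2.2, 0)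

theorem pert_lip : LipschitzWith (1 / 2 : NNReal) pert := by
  refine LipschitzWith.of_dist_le_mul fun a b => ?_
  have h1 : |a.1 - b.1| ≤ dist a b := le_max_left _ _
  have h2 : |a.2.1 - b.2.1| ≤ dist a b := le_max_of_le_right (le_max_left _ _)
  have h3 : |a.2.2 - b.2.2| ≤ dist a b := le_max_of_le_right (le_max_right _ _)
  have := uu_lip h1 h2 h3
  have h4 := dist_nonneg (x := a) (y := b)
  simp only [pert, Prod.dist_eq, dist_self, Real.dist_eq] at *
  push_cast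
  refine max_le (by positivity) (max_le (by linarith) (by positivity))

theorem contDiff_pert : ContDiff ℝ ∞ pert :=
  contDiff_const.prodMk (contDiff_uu.prodMk contDiff_const)

theorem approx : ApproximatesLinearOn (fun q => q + pert q)
    (ContinuousLinearEquiv.refl ℝ (ℝ × ℝ × ℝ) : (ℝ × ℝ × ℝ) →L[ℝ] (ℝ × ℝ × ℝ)) univ (1 / 2) := by
  intro a _ b _
  have := pert_lip.dist_le_mul a b
  rw [dist_eq_norm, dist_eq_norm] at this
  have h : a + pert a - (b + pert b) - (a - b) = pert a - pert b := by abel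
  simpa [h] using this

/-- The homeomorphism of `ℝ³`. -/
noncomputable def H3 : (ℝ × ℝ × ℝ) ≃ₜ (ℝ × ℝ × ℝ) :=
  approx.toHomeomorph _ (Or.inr (by
    rw [ContinuousLinearEquiv.refl_symm, ContinuousLinearEquiv.coe_refl,
      ContinuousLinearMap.nnnorm_id]
    norm_num))

theorem H3_apply (q : ℝ × ℝ × ℝ) : H3 q = q + pert q := rfl

theorem contDiff_H3_symm : ContDiff ℝ ∞ H3.symm := by
  have hd : ∀ q, HasFDerivAt pert (fderiv ℝ pert q) q := fun q =>
    (contDiff_pert.differentiable (by simp) q).hasFDerivAt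
  have hn : ∀ q, ‖-fderiv ℝ pert q‖ < 1 := fun q => by
    rw [norm_neg]
    refine (norm_fderiv_le_of_lipschitz ℝ pert_lip).trans_lt ?_
    norm_num
  refine H3.contDiff_symm (f₀' := fun q => ContinuousLinearEquiv.ofUnit
    (Units.oneSub _ (hn q))) (fun q => ?_) (contDiff_id.add contDiff_pert)
  have := (hasFDerivAt_id q).add (hd q)
  refine this.congr_fderiv (ContinuousLinearMap.ext fun v => ?_)
  change _ = (1 - -fderiv ℝ pert q) v
  simp

/-- The inverse of `x ↦ x + uu θ x y`. -/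
noncomputable def GG (θ x y : ℝ) : ℝ := (H3.symm (θ, x, y)).2.1

theorem contDiff_GG : ContDiff ℝ ∞ (fun q : ℝ × ℝ × ℝ => GG q.1 q.2.1 q.2.2) :=
  contDiff_H3_symm.snd.fst

theorem GG_left (θ x y : ℝ) : GG θ (x + uu θ x y) y = x := by
  have : (θ, x + uu θ x y, y) = H3 (θ, x, y) := by simp [H3_apply, pert]
  rw [GG, this, H3.symm_apply_apply]

theorem GG_right (θ x y : ℝ) : GG θ x y + uu θ (GG θ x y) y = x := by
  have h := H3.apply_symm_apply (θ, x, y)
  rw [H3_apply] at h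
  have h1 : (H3.symm (θ, x, y)).1 = θ := by simpa [pert] using congrArg Prod.fst h
  have h2 : (H3.symm (θ, x, y)).2.2 = y := by simpa [pert] using congrArg (fun q => q.2.2) h
  have h3 := congrArg (fun q => q.2.1) h
  simpa [pert, h1, h2, GG] using h3

theorem hh_strictMono (θ y : ℝ) : StrictMono fun x => x + uu θ x y := by
  intro a b hab
  have := abs_le.1 (uu_lip (θ := θ) (θ' := θ) (x := a) (x' := b) (y := y) (y' := y) (d := b - a)
    (by simp; linarith) (by rw [abs_sub_comm, abs_of_pos (sub_pos.2 hab)]) (by simp; linarith))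
  dsimp only
  linarith

theorem GG_strictMono (θ y : ℝ) : StrictMono fun x => GG θ x y := by
  intro a b hab
  rw [← (hh_strictMono θ y).lt_iff_lt]
  simpa only [GG_right] using hab

theorem GG_zero (θ y : ℝ) : GG θ 0 y = 0 := by simpa [uu_zero] using GG_left θ 0 y

theorem GG_one (θ y : ℝ) : GG θ 1 y = 1 := by simpa [uu_one] using GG_left θ 1 y

theorem GG_self (θ y : ℝ) : GG θ θ y = θ := by simpa [uu_self] using GG_left θ θ y

theorem GG_add_int (θ x y : ℝ) (m n : ℤ) : GG θ (x + m) (y + n) = GG θ x y + m := by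
  have h := GG_left θ (GG θ x y + m) (y + n)
  rw [uu_add_int] at h
  rw [← h]
  congr 1
  linarith [GG_right θ x y]

theorem GG_lip (θ : ℝ) : LipschitzWith 2 (fun p : ℝ × ℝ => GG θ p.1 p.2) := by
  refine LipschitzWith.of_dist_le_mul fun a b => ?_
  have h1 : |a.1 - b.1| ≤ dist a b := le_max_left _ _
  have h2 : |a.2 - b.2| ≤ dist a b := le_max_right _ _
  have h3 := GG_right θ a.1 a.2
  have h4 := GG_right θ b.1 b.2
  rw [Real.dist_eq]
  push_cast
  by_contra h5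
  push Not at h5
  have h0 := dist_nonneg (x := a) (y := b)
  have h6 := uu_lip (θ := θ) (θ' := θ) (x := GG θ a.1 a.2) (x' := GG θ b.1 b.2) (y := a.2)
    (y' := b.2) (d := |GG θ a.1 a.2 - GG θ b.1 b.2|) (by simp) le_rfl (by linarith)
  have h7 : GG θ a.1 a.2 - GG θ b.1 b.2 =
      (a.1 - b.1) - (uu θ (GG θ a.1 a.2) a.2 - uu θ (GG θ b.1 b.2) b.2) := by linarith
  have h8 := abs_sub (a.1 - b.1) (uu θ (GG θ a.1 a.2) a.2 - uu θ (GG θ b.1 b.2) b.2)
  rw [← h7] at h8
  linarith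

/-- The lift of the endomorphism with parameter `θ`. -/
noncomputable def FF (θ : ℝ) (p : ℝ × ℝ) : ℝ × ℝ := (GG θ p.1 p.2, 4 * p.2)

theorem contDiff_FF' : ContDiff ℝ ∞ (fun q : ℝ × ℝ × ℝ => FF q.1 q.2) :=
  contDiff_GG.prodMk (by fun_prop)

theorem contDiff_FF (θ : ℝ) : ContDiff ℝ ∞ (FF θ) :=
  contDiff_FF'.comp (contDiff_const.prodMk contDiff_id)

theorem FF_add_int (θ : ℝ) (p : ℝ × ℝ) (m n : ℤ) :
    FF θ (p + ((m : ℝ), (n : ℝ))) = FF θ p + ((m : ℝ), ((4 * n : ℤ) : ℝ)) := by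
  simp [FF, GG_add_int, mul_add]

theorem ww_pos (θ x y : ℝ) : 1 / 2 ≤ 1 + ux θ x y := by linarith [(abs_le.1 (abs_ux_le θ x y)).1]

/-- The derivative of the lift. -/
theorem exists_fderiv_FF (θ : ℝ) (p : ℝ × ℝ) : ∃ b : ℝ, |b| ≤ 2 ∧ ∀ v : ℝ × ℝ,
    fderiv ℝ (FF θ) p v = ((1 + ux θ (GG θ p.1 p.2) p.2)⁻¹ * v.1 + b * v.2, 4 * v.2) := by
  have hg : DifferentiableAt ℝ (fun p : ℝ × ℝ => GG θ p.1 p.2) p :=
    ((contDiff_FF θ).differentiable (by simp) p).fst
  set L := fderiv ℝ (fun p : ℝ × ℝ => GG θ p.1 p.2) p with hL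
  have h1 : HasFDerivAt (FF θ) (L.prod ((4 : ℝ) • ContinuousLinearMap.snd ℝ ℝ ℝ)) p :=
    hg.hasFDerivAt.prodMk (hasFDerivAt_snd.const_mul 4)
  have h2 : HasDerivAt (fun x => GG θ x p.2) (L (1, 0)) p.1 := by
    have h3 : HasDerivAt (fun x : ℝ => (x, p.2)) ((1, 0) : ℝ × ℝ) p.1 :=
      (hasDerivAt_id _).prodMk (hasDerivAt_const _ _)
    exact HasFDerivAt.comp_hasDerivAt (l := fun p : ℝ × ℝ => GG θ p.1 p.2) p.1 hg.hasFDerivAt h3
  have h3 := h2.add ((hasDerivAt_uu θ (GG θ p.1 p.2) p.2).comp p.1 h2)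
  have h4 : (fun x => GG θ x p.2) + ((fun x => uu θ x p.2) ∘ fun x => GG θ x p.2) = id :=
    funext fun x => GG_right θ x p.2
  rw [h4] at h3
  have h5 := h3.unique (hasDerivAt_id _)
  have h6 := ww_pos θ (GG θ p.1 p.2) p.2
  have h7 : L (1, 0) = (1 + ux θ (GG θ p.1 p.2) p.2)⁻¹ := by
    field_simp
    linarith
  refine ⟨L (0, 1), ?_, fun v => ?_⟩
  · have h8 : ‖L‖ ≤ (2 : NNReal) := norm_fderiv_le_of_lipschitz ℝ (GG_lip θ)
    have h9 := L.le_of_opNorm_le h8 (0, 1)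
    simpa using h9
  · rw [h1.fderiv, ← h7]
    have h8 : v = v.1 • ((1, 0) : ℝ × ℝ) + v.2 • ((0, 1) : ℝ × ℝ) := by simp
    have h9 : L v = L (1, 0) * v.1 + L (0, 1) * v.2 := by
      conv_lhs => rw [h8]
      rw [map_add, map_smul, map_smul, smul_eq_mul, smul_eq_mul]
      ring
    simp [h9]

end Pool.Agent.H408Z.NUH
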