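import Pool.Agent.H408Z.NUH.Map
import Pool.Agent.H408Z.NUH.Birk

/-!
# The maps of the torus and their measure theory
-/

open MeasureTheory Filter Topology Set Real
open scoped ContDiff

namespace Pool.Agent.H408Z.NUH

theorem proj_quot : IsOpenQuotientMap proj :=
  (QuotientAddGroup.isOpenQuotientMap_mk (N := AddSubgroup.zmultiples (1 : ℝ))).prodMap
    (QuotientAddGroup.isOpenQuotientMap_mk (N := AddSubgroup.zmultiples (1 : ℝ)))

theorem coe_add_int (x : ℝ) (m : ℤ) : ((x + m : ℝ) : UnitAddCircle) = (x : UnitAddCircle) := by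
  have : ((m : ℝ) : UnitAddCircle) = 0 := by
    rw [AddCircle.coe_eq_zero_iff]
    exact ⟨m, by simp⟩
  rw [AddCircle.coe_add, this, add_zero]

theorem coe_eq_iff {x y : ℝ} (h : (x : UnitAddCircle) = (y : UnitAddCircle)) :
    ∃ m : ℤ, y = x + m := by
  have h1 : ((y - x : ℝ) : UnitAddCircle) = 0 := by rw [AddCircle.coe_sub, h, sub_self]
  rw [AddCircle.coe_eq_zero_iff] at h1
  obtain ⟨m, hm⟩ := h1
  exact ⟨m, by simp at hm; linarith⟩

theorem proj_add_int (p : ℝ × ℝ) (m n : ℤ) : proj (p + ((m : ℝ), (n : ℝ))) = proj p := by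
  simp only [proj, Prod.fst_add, Prod.snd_add, coe_add_int]

theorem proj_eq {p q : ℝ × ℝ} (h : proj p = proj q) : ∃ m n : ℤ, q = p + ((m : ℝ), (n : ℝ)) := by
  obtain ⟨m, hm⟩ := coe_eq_iff (congrArg Prod.fst h)
  obtain ⟨n, hn⟩ := coe_eq_iff (congrArg Prod.snd h)
  exact ⟨m, n, Prod.ext hm hn⟩

theorem exists_rep (z : T2) : ∃ p : ℝ × ℝ, p.1 ∈ Ico (0 : ℝ) 1 ∧ p.2 ∈ Ico (0 : ℝ) 1 ∧
    proj p = z := by
  obtain ⟨p, rfl⟩ := proj_quot.surjective z
  refine ⟨(Int.fract p.1, Int.fract p.2), ⟨Int.fract_nonneg _, Int.fract_lt_one _⟩,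
    ⟨Int.fract_nonneg _, Int.fract_lt_one _⟩, ?_⟩
  rw [← proj_add_int _ ⌊p.1⌋ ⌊p.2⌋]
  simp

/-- Descent of a periodic function to the torus. -/
noncomputable def desc {β : Type*} (W : ℝ × ℝ → β) (z : T2) : β :=
  W (Function.surjInv proj_quot.surjective z)

theorem desc_proj {β : Type*} {W : ℝ × ℝ → β}
    (hW : ∀ (p : ℝ × ℝ) (m n : ℤ), W (p + ((m : ℝ), (n : ℝ))) = W p) (p : ℝ × ℝ) :
    desc W (proj p) = W p := by
  obtain ⟨m, n, h⟩ := proj_eq (Function.surjInv_eq proj_quot.surjective (proj p)).symm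
  rw [desc, h, hW]

theorem continuous_desc {β : Type*} [TopologicalSpace β] {W : ℝ × ℝ → β}
    (hW : ∀ (p : ℝ × ℝ) (m n : ℤ), W (p + ((m : ℝ), (n : ℝ))) = W p) (hc : Continuous W) :
    Continuous (desc W) := by
  rw [← proj_quot.continuous_comp_iff]
  exact hc.congr fun p => (desc_proj hW p).symm

/-- The endomorphism of the torus. -/
noncomputable def ff (θ : ℝ) : T2 → T2 := desc fun p => proj (FF θ p)

theorem ff_per (θ : ℝ) (p : ℝ × ℝ) (m n : ℤ) :
    proj (FF θ (p + ((m : ℝ), (n : ℝ)))) = proj (FF θ p) := by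
  rw [FF_add_int, proj_add_int]

theorem ff_proj (θ : ℝ) (p : ℝ × ℝ) : ff θ (proj p) = proj (FF θ p) := desc_proj (ff_per θ) p

theorem continuous_ff (θ : ℝ) : Continuous (ff θ) :=
  continuous_desc (ff_per θ) (proj_quot.continuous.comp (contDiff_FF θ).continuous)

theorem ff_iterate (θ : ℝ) (n : ℕ) (p : ℝ × ℝ) : (ff θ)^[n] (proj p) = proj ((FF θ)^[n] p) :=
  (Function.Semiconj.iterate_right (f := proj) (ga := FF θ) (gb := ff θ)
    (fun p => (ff_proj θ p).symm) n p).symm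

/-- The shear in the plane. -/
noncomputable def HH (θ : ℝ) (p : ℝ × ℝ) : ℝ × ℝ := (p.1 + uu θ p.1 p.2, p.2)

theorem contDiff_HH (θ : ℝ) : ContDiff ℝ ∞ (HH θ) :=
  (contDiff_fst.add (contDiff_uu.comp (contDiff_const.prodMk contDiff_id))).prodMk contDiff_snd

/-- The shear of the torus. -/
noncomputable def hh (θ : ℝ) : T2 → T2 := desc fun p => proj (HH θ p)

theorem hh_per (θ : ℝ) (p : ℝ × ℝ) (m n : ℤ) :
    proj (HH θ (p + ((m : ℝ), (n : ℝ)))) = proj (HH θ p) := by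
  rw [← proj_add_int (HH θ p) m n]
  simp only [HH, Prod.fst_add, Prod.snd_add, uu_add_int, Prod.mk_add_mk]
  congr 2
  ring

theorem hh_proj (θ : ℝ) (p : ℝ × ℝ) : hh θ (proj p) = proj (HH θ p) := desc_proj (hh_per θ) p

theorem continuous_hh (θ : ℝ) : Continuous (hh θ) :=
  continuous_desc (hh_per θ) (proj_quot.continuous.comp (contDiff_HH θ).continuous)

/-- The Jacobian of the shear minus one. -/
noncomputable def vv (θ : ℝ) : T2 → ℝ := desc fun p => ux θ p.1 p.2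

theorem vv_proj (θ : ℝ) (p : ℝ × ℝ) : vv θ (proj p) = ux θ p.1 p.2 :=
  desc_proj (W := fun p => ux θ p.1 p.2) (fun p m n => ux_add_int θ p.1 p.2 m n) p

theorem continuous_vv (θ : ℝ) : Continuous (vv θ) :=
  continuous_desc (W := fun p => ux θ p.1 p.2) (fun p m n => ux_add_int θ p.1 p.2 m n) (by
    unfold ux
    fun_prop)

theorem abs_vv_le (θ : ℝ) (z : T2) : |vv θ z| ≤ 1 / 2 := abs_ux_le _ _ _

/-- The linear endomorphism. -/
noncomputable def EE (z : T2) : T2 := (z.1, (4 : ℕ) • z.2)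

theorem EE_proj (p : ℝ × ℝ) : EE (proj p) = proj (p.1, 4 * p.2) := by
  simp only [EE, proj]
  rw [← AddCircle.coe_nsmul]
  simp

theorem EE_pres : MeasurePreserving EE volume volume :=
  (MeasurePreserving.id _).prod
    (AddCircle.ergodic_nsmul (T := 1) (n := 4) (by norm_num)).toMeasurePreserving

theorem ff_hh (θ : ℝ) (z : T2) : ff θ (hh θ z) = EE z := by
  obtain ⟨p, rfl⟩ := proj_quot.surjective z
  rw [hh_proj, ff_proj, EE_proj]
  simp [FF, HH, GG_left]

theorem proj_pres : MeasurePreserving proj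
    (volume.restrict (Ioc (0 : ℝ) 1 ×ˢ Ioc (0 : ℝ) 1)) volume := by
  have h := AddCircle.measurePreserving_mk 1 0
  rw [zero_add] at h
  have h2 := h.prod h
  rw [Measure.prod_restrict] at h2
  exact h2

theorem integral_proj {ψ : T2 → ℝ} (hψ : Measurable ψ) :
    ∫ z, ψ z = ∫ p in Ioc (0 : ℝ) 1 ×ˢ Ioc (0 : ℝ) 1, ψ (proj p) := by
  rw [← proj_pres.map_eq, integral_map proj_pres.measurable.aemeasurable hψ.aestronglyMeasurable]

theorem det_eq (L : ℝ × ℝ →L[ℝ] ℝ × ℝ) :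
    L.det = (L (1, 0)).1 * (L (0, 1)).2 - (L (0, 1)).1 * (L (1, 0)).2 := by
  rw [ContinuousLinearMap.det, ← LinearMap.det_toMatrix (Module.Basis.finTwoProd ℝ),
    Matrix.det_fin_two]
  simp [LinearMap.toMatrix_apply]

theorem det_HH (θ : ℝ) (p : ℝ × ℝ) : (fderiv ℝ (HH θ) p).det = 1 + ux θ p.1 p.2 := by
  have hd := ((contDiff_HH θ).differentiable (by simp) p).hasFDerivAt
  have h1 : HasDerivAt (fun x : ℝ => (x, p.2)) ((1, 0) : ℝ × ℝ) p.1 :=
    (hasDerivAt_id _).prodMk (hasDerivAt_const _ _)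
  have h2 : HasDerivAt (fun y : ℝ => (p.1, y)) ((0, 1) : ℝ × ℝ) p.2 :=
    (hasDerivAt_const _ _).prodMk (hasDerivAt_id _)
  have h3 := HasFDerivAt.comp_hasDerivAt (l := HH θ) p.1 hd h1
  have h4 := HasFDerivAt.comp_hasDerivAt (l := HH θ) p.2 hd h2
  have h5 : HasDerivAt (HH θ ∘ fun x : ℝ => (x, p.2)) ((1 + ux θ p.1 p.2, 0) : ℝ × ℝ) p.1 :=
    ((hasDerivAt_id _).add (hasDerivAt_uu θ p.1 p.2)).prodMk (hasDerivAt_const _ _)
  have h6 := (HasFDerivAt.comp_hasDerivAt (l := Prod.snd) p.2 hasFDerivAt_snd h4).unique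
    (hasDerivAt_id p.2)
  rw [det_eq, h3.unique h5]
  simp only [ContinuousLinearMap.coe_snd'] at h6
  rw [h6]
  simp

theorem HH_image (θ : ℝ) : HH θ '' (Ioc (0 : ℝ) 1 ×ˢ Ioc (0 : ℝ) 1) =
    Ioc (0 : ℝ) 1 ×ˢ Ioc (0 : ℝ) 1 := by
  ext p
  constructor
  · rintro ⟨q, ⟨h1, h2⟩, rfl⟩
    refine ⟨⟨?_, ?_⟩, h2⟩
    · simpa [uu_zero, HH] using hh_strictMono θ q.2 h1.1
    · simpa [uu_one, HH] using (hh_strictMono θ q.2).monotone h1.2
  · rintro ⟨h1, h2⟩
    refine ⟨(GG θ p.1 p.2, p.2), ⟨⟨?_, ?_⟩, h2⟩, by simp [HH, GG_right]⟩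
    · simpa [GG_zero] using GG_strictMono θ p.2 h1.1
    · simpa [GG_one] using (GG_strictMono θ p.2).monotone h1.2

theorem HH_inj (θ : ℝ) : Function.Injective (HH θ) := by
  rintro ⟨x, y⟩ ⟨x', y'⟩ h
  obtain ⟨h1, rfl⟩ := Prod.mk.inj h
  exact Prod.ext ((hh_strictMono θ y).injective h1) rfl

/-- Change of variables by the shear. -/
theorem integral_hh (θ : ℝ) {ψ : T2 → ℝ} (hψ : Measurable ψ) :
    ∫ z, ψ z = ∫ z, (1 + vv θ z) * ψ (hh θ z) := by
  rw [integral_proj hψ, integral_proj (ψ := fun z => (1 + vv θ z) * ψ (hh θ z))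
    (((continuous_vv θ).measurable.const_add 1).mul
    (hψ.comp (continuous_hh θ).measurable))]
  conv_lhs => rw [← HH_image θ]
  rw [integral_image_eq_integral_abs_det_fderiv_smul volume
    (measurableSet_Ioc.prod measurableSet_Ioc) (fun p _ =>
      ((contDiff_HH θ).differentiable (by simp) p).hasFDerivAt.hasFDerivWithinAt)
    (HH_inj θ).injOn]
  congr 1
  ext p
  rw [det_HH, vv_proj, hh_proj, abs_of_pos (by linarith [ww_pos θ p.1 p.2]), smul_eq_mul]

/-- Vertical translations. -/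
noncomputable def tr (t : ℝ) (z : T2) : T2 := z + proj (0, t)

theorem tr_proj (t : ℝ) (p : ℝ × ℝ) : tr t (proj p) = proj (p.1, p.2 + t) := by
  simp [tr, proj]

theorem integral_tr (t : ℝ) (ψ : T2 → ℝ) : ∫ z, ψ (tr t z) = ∫ z, ψ z :=
  haveI : (volume : Measure T2).IsAddRightInvariant := Measure.prod.instIsAddRightInvariant
  integral_add_right_eq_self ψ _

theorem EE_tr (j : ℤ) (z : T2) : EE (tr (j / 4) z) = EE z := by
  obtain ⟨p, rfl⟩ := proj_quot.surjective z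
  rw [tr_proj, EE_proj, EE_proj, ← proj_add_int (p.1, 4 * p.2) 0 j]
  congr 1
  simp only [Int.cast_zero, Prod.mk_add_mk, add_zero]
  congr 1
  ring

theorem integral_vv (θ : ℝ) (ψ : T2 → ℝ) : ∫ z, vv θ z * ψ (EE z) = 0 := by
  have h := integral_tr ((2 : ℤ) / 4) fun z => vv θ z * ψ (EE z)
  have h1 : ∀ z, vv θ (tr ((2 : ℤ) / 4) z) = -vv θ z := by
    intro z
    obtain ⟨p, rfl⟩ := proj_quot.surjective z
    rw [tr_proj, vv_proj, vv_proj, ← ux_add_half]
    norm_num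
  simp only [EE_tr, h1, neg_mul, integral_neg] at h
  linarith

theorem ff_pres (θ : ℝ) : MeasurePreserving (ff θ) volume volume := by
  have hm := (continuous_ff θ).measurable
  refine ⟨hm, Measure.ext fun A hA => ?_⟩
  rw [Measure.map_apply hm hA, ← EE_pres.measure_preimage hA.nullMeasurableSet,
    ← measureReal_eq_measureReal_iff, ← integral_indicator_one (hm hA),
    ← integral_indicator_one (EE_pres.measurable hA),
    integral_hh θ (measurable_one.indicator (hm hA))]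
  have h1 : ∀ z, (1 + vv θ z) * (ff θ ⁻¹' A).indicator (1 : T2 → ℝ) (hh θ z) =
      (EE ⁻¹' A).indicator 1 z + vv θ z * A.indicator 1 (EE z) := by
    intro z
    by_cases h : EE z ∈ A <;> simp [indicator, ff_hh, h]
  have h2 : ∀ z, |A.indicator (1 : T2 → ℝ) z| ≤ 1 := by
    intro z
    by_cases h : z ∈ A <;> simp [h]
  simp only [h1]
  rw [integral_add, integral_vv θ (A.indicator 1), add_zero]
  · exact integrable_of_bdd (measurable_one.indicator (EE_pres.measurable hA))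
      (fun z => h2 (EE z)) _
  · exact integrable_of_bdd ((continuous_vv θ).measurable.mul
      ((measurable_one.indicator hA).comp EE_pres.measurable))
      (fun z => abs_mul_le_one ((abs_vv_le θ z).trans (by norm_num)) (h2 _)) _

theorem ff_not_inj (θ : ℝ) : ¬ Function.Injective (ff θ) := by
  intro h
  have h1 : ff θ (proj (0, 0)) = ff θ (proj (0, 1 / 4)) := by
    rw [ff_proj, ff_proj, ← proj_add_int _ 0 1]
    simp [FF, GG_zero]
  obtain ⟨m, n, h2⟩ := proj_eq (h h1)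
  have h3 : (1 / 4 : ℝ) = n := by simpa using congrArg Prod.snd h2
  have h4 : (1 : ℝ) = (4 * n : ℤ) := by push_cast; linarith
  have h5 : (1 : ℤ) = 4 * n := by exact_mod_cast h4
  omega

theorem fderiv_FF_bij (θ : ℝ) (p : ℝ × ℝ) : Function.Bijective (fderiv ℝ (FF θ) p) := by
  obtain ⟨b, -, h⟩ := exists_fderiv_FF θ p
  have h1 := ww_pos θ (GG θ p.1 p.2) p.2
  have h2 : (1 + ux θ (GG θ p.1 p.2) p.2)⁻¹ ≠ 0 := inv_ne_zero (by linarith)
  constructor
  · rw [injective_iff_map_eq_zero]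
    intro v hv
    rw [h] at hv
    obtain ⟨h3, h4⟩ := Prod.mk.inj hv
    have h5 : v.2 = 0 := by linarith
    rw [h5, mul_zero, add_zero] at h3
    exact Prod.ext ((mul_eq_zero.1 h3).resolve_left h2) h5
  · intro w
    refine ⟨((1 + ux θ (GG θ p.1 p.2) p.2) * (w.1 - b * (w.2 / 4)), w.2 / 4), ?_⟩
    rw [h]
    have h3 : 1 + ux θ (GG θ p.1 p.2) p.2 ≠ 0 := by linarith
    refine Prod.ext ?_ ?_
    · field_simp
      ring
    · ring

/-- The endomorphism with parameter `θ`. -/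
noncomputable def endo (θ : ℝ) : Endo where
  map := ff θ
  lift := FF θ
  isLift p := (ff_proj θ p).symm
  contDiff := (contDiff_FF θ).of_le (by simp)
  localDiffeo := fderiv_FF_bij θ
  nonInvertible := ff_not_inj θ
  preserving := ff_pres θ

end Pool.Agent.H408Z.NUH
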