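import Pool.Agent.H408Z.NUH.Hyp

/-!
# Transitivity, and the non-ergodic perturbations
-/

open MeasureTheory Filter Topology Set Real
open scoped ContDiff

namespace Pool.Agent.H408Z.NUH

/-- The squared amplitude of the change of length of an interval. -/
noncomputable def QQ (q : ℝ × ℝ) : ℝ :=
  (sin (π * q.2) ^ 3 - sin (π * q.1) ^ 3) ^ 2 +
    2 * (sin (π * q.1) ^ 3 * sin (π * q.2) ^ 3) * (1 - cos (π * q.2 - π * q.1))

theorem QQ_pos {a b : ℝ} (ha : 0 ≤ a) (hab : a < b) (hb : b ≤ 1) (h : 0 < a ∨ b < 1) :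
    0 < QQ (a, b) := by
  have h1 : 0 ≤ sin (π * a) := sin_nonneg_of_nonneg_of_le_pi (by positivity)
    (by nlinarith [pi_pos])
  have h2 : 0 ≤ sin (π * b) := sin_nonneg_of_nonneg_of_le_pi (by nlinarith [pi_pos])
    (by nlinarith [pi_pos])
  have h3 : cos (π * b - π * a) < 1 := by
    rw [← cos_zero]
    exact cos_lt_cos_of_nonneg_of_le_pi le_rfl (by nlinarith [pi_pos]) (by nlinarith [pi_pos])
  have h4 : 0 < sin (π * a) ∨ 0 < sin (π * b) := h.imp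
    (fun h => sin_pos_of_pos_of_lt_pi (by positivity) (by nlinarith [pi_pos]))
    fun h => sin_pos_of_pos_of_lt_pi (by nlinarith [pi_pos]) (by nlinarith [pi_pos])
  unfold QQ
  dsimp only
  by_cases h5 : sin (π * b) ^ 3 = sin (π * a) ^ 3
  · have h6 : 0 < sin (π * a) ^ 3 := by
      rcases h4 with h4 | h4
      · positivity
      · rw [← h5]
        positivity
    rw [h5]
    have := mul_pos (mul_pos h6 h6) (sub_pos.2 h3)
    nlinarith
  · have h6 := sq_pos_of_ne_zero (sub_ne_zero.2 h5)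
    have h7 := mul_nonneg (mul_nonneg (pow_nonneg h1 3) (pow_nonneg h2 3)) (sub_pos.2 h3).le
    nlinarith

theorem exists_expand (a b y : ℝ) : ∃ j : ℤ, 0 ≤ uu 0 b (y + j / 4) - uu 0 a (y + j / 4) ∧
    QQ (a, b) ≤ 20000 * (uu 0 b (y + j / 4) - uu 0 a (y + j / 4)) ^ 2 := by
  set D : ℝ → ℝ := fun y => uu 0 b y - uu 0 a y with hD
  have h1 : ∀ y, D (y + 1 / 2) = -D y := by
    intro y
    simp only [hD, uu_add_half]
    ring
  have h2 : QQ (a, b) = 10000 * (D y ^ 2 + D (y + 1 / 4) ^ 2) := by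
    have h3 : ∀ x, π * x + 2 * π * (y + 1 / 4) = (π * x + 2 * π * y) + π / 2 := fun x => by ring
    have h4 : π * b - π * a = (π * b + 2 * π * y) - (π * a + 2 * π * y) := by ring
    simp only [hD, QQ, uu, h3, sin_add_pi_div_two, mul_zero, sin_zero]
    rw [h4, cos_sub]
    have h5 := sin_sq_add_cos_sq (π * a + 2 * π * y)
    have h6 := sin_sq_add_cos_sq (π * b + 2 * π * y)
    linear_combination (-sin (π * a) ^ 6) * h5 + (-sin (π * b) ^ 6) * h6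
  have key : ∀ i : ℤ, QQ (a, b) ≤ 20000 * D (y + i / 4) ^ 2 →
      ∃ j : ℤ, 0 ≤ D (y + j / 4) ∧ QQ (a, b) ≤ 20000 * D (y + j / 4) ^ 2 := by
    intro i hi
    rcases le_total 0 (D (y + i / 4)) with h | h
    · exact ⟨i, h, hi⟩
    · have h3 : y + ((i + 2 : ℤ) : ℝ) / 4 = y + i / 4 + 1 / 2 := by
        push_cast
        ring
      exact ⟨i + 2, by rw [h3, h1]; linarith, by rw [h3, h1]; linarith⟩
  rcases le_total (D y ^ 2) (D (y + 1 / 4) ^ 2) with h | h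
  · exact key 1 (by push_cast; linarith)
  · exact key 0 (by simp only [Int.cast_zero, zero_div, add_zero]; linarith)

theorem exists_long {V : Set T2} {a₀ b₀ y₀ η : ℝ} (h0 : 0 ≤ a₀) (h1 : a₀ < b₀) (h2 : b₀ ≤ 1)
    (hV : ∀ x ∈ Icc a₀ b₀, proj (x, y₀) ∈ V) (hη : 0 < η) :
    ∃ a b y : ℝ, ∃ n : ℕ, a < η ∧ 1 - η < b ∧ ∀ x ∈ Icc a b, (ff 0)^[n] (proj (x, y)) ∈ V := by
  by_contra hc
  push Not at hc
  have hK : IsCompact ((Icc (0 : ℝ) 1 ×ˢ Icc (0 : ℝ) 1) ∩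
      {q | b₀ - a₀ ≤ q.2 - q.1 ∧ (η ≤ q.1 ∨ q.2 ≤ 1 - η)}) :=
    (isCompact_Icc.prod isCompact_Icc).inter_right
      ((isClosed_le continuous_const (continuous_snd.sub continuous_fst)).inter
        ((isClosed_le continuous_const continuous_fst).union
          (isClosed_le continuous_snd continuous_const)))
  obtain ⟨q₀, hq, hq'⟩ := hK.exists_forall_le' (f := QQ) (a := 0)
    (Continuous.continuousOn (by unfold QQ; fun_prop)) (by
      rintro ⟨a, b⟩ ⟨⟨ha, hb⟩, h3, h4⟩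
      dsimp only at ha hb h3 h4
      exact QQ_pos ha.1 (by linarith) hb.2 (h4.imp (fun h => by linarith) fun h => by linarith))
  have hκ : 0 < √(q₀ / 20000) := Real.sqrt_pos.2 (by positivity)
  have key : ∀ m : ℕ, ∃ a b y : ℝ, ∃ n : ℕ, 0 ≤ a ∧ b ≤ 1 ∧ b₀ - a₀ + m * √(q₀ / 20000) ≤ b - a ∧
      ∀ x ∈ Icc a b, (ff 0)^[n] (proj (x, y)) ∈ V := by
    intro m
    induction m with
    | zero => exact ⟨a₀, b₀, y₀, 0, h0, h2, by simp, hV⟩
    | succ m ih =>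
      obtain ⟨a, b, y, n, h3, h4, h5, h6⟩ := ih
      have h7 : 0 ≤ m * √(q₀ / 20000) := by positivity
      have h8 : η ≤ a ∨ b ≤ 1 - η := by
        by_contra h9
        push Not at h9
        obtain ⟨x, hx, hx'⟩ := hc a b y n h9.1 h9.2
        exact hx' (h6 x hx)
      have h9 := hq' (a, b) ⟨⟨⟨h3, by linarith⟩, ⟨by linarith, h4⟩⟩, by linarith, h8⟩
      obtain ⟨j, h10, h11⟩ := exists_expand a b (y / 4)
      have h12 : √(q₀ / 20000) ≤ uu 0 b (y / 4 + j / 4) - uu 0 a (y / 4 + j / 4) :=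
        Real.sqrt_le_iff.2 ⟨h10, by linarith⟩
      refine ⟨a + uu 0 a (y / 4 + j / 4), b + uu 0 b (y / 4 + j / 4), y / 4 + j / 4, n + 1, ?_, ?_,
        by push_cast; linarith, fun x hx => ?_⟩
      · simpa [uu_zero] using (hh_strictMono 0 (y / 4 + j / 4)).monotone h3
      · simpa [uu_one] using (hh_strictMono 0 (y / 4 + j / 4)).monotone h4
      · rw [Function.iterate_succ_apply, ff_proj]
        have h13 : FF 0 (x, y / 4 + j / 4) = (GG 0 x (y / 4 + j / 4), y) + (((0 : ℤ) : ℝ), (j : ℝ)) := by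
          simp only [FF, Int.cast_zero, Prod.mk_add_mk, add_zero]
          congr 1
          ring
        rw [h13, proj_add_int]
        refine h6 _ ⟨?_, ?_⟩
        · simpa [GG_left] using (GG_strictMono 0 (y / 4 + j / 4)).monotone hx.1
        · simpa [GG_left] using (GG_strictMono 0 (y / 4 + j / 4)).monotone hx.2
  obtain ⟨m, hm⟩ := exists_nat_gt (1 / √(q₀ / 20000))
  obtain ⟨a, b, -, -, h3, h4, h5, -⟩ := key m
  rw [div_lt_iff₀ hκ] at hm
  linarith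

theorem exists_box {U : Set T2} (hU : IsOpen U) (hne : U.Nonempty) : ∃ x y r : ℝ, 0 < x ∧ 0 < r ∧
    x + r < 1 ∧ ∀ x' ∈ Icc x (x + r), ∀ y' ∈ Icc y (y + r), proj (x', y') ∈ U := by
  obtain ⟨z, hz⟩ := hne
  obtain ⟨p, h1, -, rfl⟩ := exists_rep z
  obtain ⟨ε, hε, h2⟩ := Metric.isOpen_iff.1 (hU.preimage proj_quot.continuous) p hz
  have h3 := min_le_left ε (1 - p.1)
  have h4 := min_le_right ε (1 - p.1)
  have h5 : 0 < min ε (1 - p.1) := lt_min hε (sub_pos.2 h1.2)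
  refine ⟨p.1 + min ε (1 - p.1) / 3, p.2, min ε (1 - p.1) / 3, by linarith [h1.1], by linarith,
    by linarith, fun x' hx y' hy => h2 ?_⟩
  rw [Metric.mem_ball, Prod.dist_eq, Real.dist_eq, Real.dist_eq, max_lt_iff, abs_lt, abs_lt]
  refine ⟨⟨?_, ?_⟩, ?_, ?_⟩ <;> linarith [hx.1, hx.2, hy.1, hy.2]

theorem FF_iter (θ : ℝ) (m : ℕ) (p : ℝ × ℝ) (h : p.1 ∈ Ioo (0 : ℝ) 1) :
    ((FF θ)^[m] p).1 ∈ Ioo (0 : ℝ) 1 ∧ ((FF θ)^[m] p).2 = 4 ^ m * p.2 := by
  induction m with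
  | zero => simpa using h
  | succ m ih =>
    rw [Function.iterate_succ_apply']
    refine ⟨⟨?_, ?_⟩, ?_⟩
    · simpa [GG_zero, FF] using GG_strictMono θ ((FF θ)^[m] p).2 ih.1.1
    · simpa [GG_one, FF] using GG_strictMono θ ((FF θ)^[m] p).2 ih.1.2
    · simp only [FF, ih.2]
      ring

theorem exists_hit {U V : Set T2} (hU : IsOpen U) (hU' : U.Nonempty) (hV : IsOpen V)
    (hV' : V.Nonempty) : ∃ n, ∃ z ∈ U, (ff 0)^[n] z ∈ V := by
  obtain ⟨x, y, r, h1, h2, h3, h4⟩ := exists_box hU hU'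
  obtain ⟨x', y', r', h5, h6, h7, h8⟩ := exists_box hV hV'
  obtain ⟨m, hm⟩ := pow_unbounded_of_one_lt (1 / r) (by norm_num : (1 : ℝ) < 4)
  rw [div_lt_iff₀ h2] at hm
  have hX : Continuous fun t => ((FF 0)^[m] (x, t)).1 :=
    (((contDiff_FF 0).continuous.iterate m).comp (Continuous.prodMk_right x)).fst
  have hx : ∀ t, ((FF 0)^[m] (x, t)).1 ∈ Ioo (0 : ℝ) 1 ∧ ((FF 0)^[m] (x, t)).2 = 4 ^ m * t :=
    fun t => FF_iter 0 m (x, t) ⟨h1, by linarith⟩
  obtain ⟨η, hη, hη'⟩ := (isCompact_Icc (a := y) (b := y + r)).exists_forall_le'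
    (f := fun t => min ((FF 0)^[m] (x, t)).1 (1 - ((FF 0)^[m] (x, t)).1)) (a := 0)
    (hX.min (continuous_const.sub hX)).continuousOn
    fun t _ => lt_min (hx t).1.1 (sub_pos.2 (hx t).1.2)
  obtain ⟨a, b, s, n, h9, h10, h11⟩ := exists_long (V := V) (y₀ := y') h5.le
    (by linarith : x' < x' + r') h7.le (fun t ht => h8 t ht y' ⟨le_rfl, by linarith⟩) hη
  have h12 : (0 : ℝ) < 4 ^ m := by positivity
  have h13 : (s + ⌈4 ^ m * y - s⌉) / 4 ^ m ∈ Icc y (y + r) := by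
    have h14 := Int.le_ceil (4 ^ m * y - s)
    have h15 := Int.ceil_lt_add_one (4 ^ m * y - s)
    constructor
    · rw [le_div_iff₀ h12]
      linarith
    · rw [div_le_iff₀ h12]
      linarith
  refine ⟨n + m, proj (x, _), h4 x ⟨le_rfl, by linarith⟩ _ h13, ?_⟩
  rw [Function.iterate_add_apply, ff_iterate]
  have h14 := le_min_iff.1 (hη' _ h13)
  have h15 : (FF 0)^[m] (x, (s + ⌈4 ^ m * y - s⌉) / 4 ^ m) =
      (((FF 0)^[m] (x, (s + ⌈4 ^ m * y - s⌉) / 4 ^ m)).1, s) +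
        (((0 : ℤ) : ℝ), ((⌈4 ^ m * y - s⌉ : ℤ) : ℝ)) := by
    refine Prod.ext (by simp) ?_
    rw [(hx _).2]
    simp only [Prod.mk_add_mk]
    field_simp
  rw [h15, proj_add_int]
  exact h11 _ ⟨by linarith [h14.1], by linarith [h14.2]⟩

theorem transitive : (endo 0).Transitive := by
  have hB := TopologicalSpace.isBasis_countableBasis T2
  have h : Dense (⋂ V ∈ TopologicalSpace.countableBasis T2, ⋃ n, (ff 0)^[n] ⁻¹' V) := by
    refine dense_biInter_of_isOpen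
      (fun V hV => isOpen_iUnion fun n => (hB.isOpen hV).preimage ((continuous_ff 0).iterate n))
      (TopologicalSpace.countable_countableBasis T2)
      fun V hV => dense_iff_inter_open.2 fun U hU hU' => ?_
    obtain ⟨n, z, h1, h2⟩ := exists_hit hU hU' (hB.isOpen hV)
      (TopologicalSpace.nonempty_of_mem_countableBasis hV)
    exact ⟨z, h1, mem_iUnion.2 ⟨n, h2⟩⟩
  obtain ⟨x, hx⟩ := h.nonempty
  refine ⟨x, hB.dense_iff.2 fun V hV _ => ?_⟩
  obtain ⟨n, hn⟩ := mem_iUnion.1 (mem_iInter₂.1 hx V hV)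
  exact ⟨_, hn, n, rfl⟩

theorem not_ergodic {θ : ℝ} (h0 : 0 < θ) (h1 : θ < 1) : ¬ Ergodic (ff θ) volume := by
  intro h
  let S : ℝ → ℝ → Set T2 := fun a b => proj '' (Ioo a b ×ˢ univ)
  have hS : ∀ a b, IsOpen (S a b) := fun a b => proj_quot.isOpenMap _ (isOpen_Ioo.prod isOpen_univ)
  have hmem : ∀ a b, 0 ≤ a → b ≤ 1 → ∀ p : ℝ × ℝ, p.1 ∈ Ico (0 : ℝ) 1 →
      (proj p ∈ S a b ↔ p.1 ∈ Ioo a b) := by
    intro a b ha hb p hp
    refine ⟨?_, fun h => ⟨p, ⟨h, trivial⟩, rfl⟩⟩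
    rintro ⟨q, ⟨h2, -⟩, h3⟩
    obtain ⟨m, n, rfl⟩ := proj_eq h3
    have h4 : (m : ℝ) < 1 := by linarith [hp.2, h2.1, (Prod.fst_add q ((m : ℝ), (n : ℝ)))]
    have h5 : (-1 : ℝ) < m := by linarith [hp.1, h2.2, (Prod.fst_add q ((m : ℝ), (n : ℝ)))]
    have h6 : m < 1 := by exact_mod_cast h4
    have h7 : -1 < m := by exact_mod_cast h5
    obtain rfl : m = 0 := by omega
    simpa using h2
  have hinv : ff θ ⁻¹' S 0 θ = S 0 θ := by
    ext z
    obtain ⟨p, hp, -, rfl⟩ := exists_rep z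
    have hG := GG_strictMono θ p.2
    have h2 : (FF θ p).1 ∈ Ico (0 : ℝ) 1 :=
      ⟨by simpa [GG_zero, FF] using hG.monotone hp.1, by simpa [GG_one, FF] using hG hp.2⟩
    rw [mem_preimage, ff_proj, hmem 0 θ le_rfl h1.le _ h2, hmem 0 θ le_rfl h1.le _ hp]
    have h3 := hG.lt_iff_lt (a := 0) (b := p.1)
    have h4 := hG.lt_iff_lt (a := p.1) (b := θ)
    simp only [GG_zero, GG_self] at h3 h4
    exact and_congr h3 h4
  rcases h.measure_self_or_compl_eq_zero (hS 0 θ).measurableSet hinv with h2 | h2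
  · exact (hS 0 θ).measure_ne_zero volume ⟨_, (θ / 2, 0), ⟨⟨by linarith, by linarith⟩, trivial⟩,
      rfl⟩ h2
  · refine (hS θ 1).measure_ne_zero volume ⟨_, ((θ + 1) / 2, 0),
      ⟨⟨by linarith, by linarith⟩, trivial⟩, rfl⟩ (measure_mono_null ?_ h2)
    intro z h3 h4
    obtain ⟨p, hp, -, rfl⟩ := exists_rep z
    rw [hmem θ 1 h0.le le_rfl _ hp] at h3
    rw [hmem 0 θ le_rfl h1.le _ hp] at h4
    exact lt_asymm h3.1 h4.2

theorem fderiv_FF_per (θ : ℝ) (p : ℝ × ℝ) (m n : ℤ) :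
    fderiv ℝ (FF θ) (p + ((m : ℝ), (n : ℝ))) = fderiv ℝ (FF θ) p := by
  rw [← fderiv_comp_add_right]
  simp only [FF_add_int, fderiv_add_const]

theorem eventually_close {ε : ℝ} (hε : 0 < ε) :
    ∀ᶠ θ in 𝓝 (0 : ℝ), C1Close ε (endo 0) (endo θ) := by
  have hD : Continuous fun q : ℝ × ℝ × ℝ => fderiv ℝ (FF q.1) q.2 :=
    (ContDiff.fderiv (f := fun (q : ℝ × ℝ × ℝ) (p : ℝ × ℝ) => FF q.1 p) (g := fun q => q.2) (n := 0)
      (m := ∞) (contDiff_FF'.comp (contDiff_fst.fst.prodMk contDiff_snd)) contDiff_snd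
      (by simp)).continuous
  have hF : Continuous fun q : ℝ × ℝ × ℝ => proj (FF q.1 q.2) :=
    proj_quot.continuous.comp contDiff_FF'.continuous
  have h0 : Continuous fun q : ℝ × ℝ × ℝ => ((0 : ℝ), q.2) := by fun_prop
  have h1 := (isCompact_Icc (a := ((0, 0) : ℝ × ℝ)) (b := (1, 1))).eventually_forall_of_forall_eventually
    (x₀ := (0 : ℝ)) (P := fun θ p => dist (proj (FF 0 p)) (proj (FF θ p)) < ε ∧
      ‖fderiv ℝ (FF 0) p - fderiv ℝ (FF θ) p‖ < ε) fun p _ =>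
    ((isOpen_lt ((hF.comp h0).dist hF) continuous_const).inter
      (isOpen_lt ((hD.comp h0).sub hD).norm continuous_const)).mem_nhds (by simp [hε])
  filter_upwards [h1] with θ h1 p
  obtain ⟨q, h2, h3, h4⟩ := exists_rep (proj p)
  obtain ⟨m, n, rfl⟩ := proj_eq h4
  have h5 := h1 q ⟨⟨h2.1, h3.1⟩, h2.2.le, h3.2.le⟩
  change dist (ff 0 _) (ff θ _) < ε ∧ ‖fderiv ℝ (FF 0) _ - fderiv ℝ (FF θ) _‖ < ε
  rwa [proj_add_int, ff_proj, ff_proj, fderiv_FF_per, fderiv_FF_per]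

theorem exists_close {ε : ℝ} (hε : 0 < ε) : ∃ θ, C1Close ε (endo 0) (endo θ) ∧
    ¬ Ergodic (ff θ) volume := by
  have h1 : ∀ᶠ θ in 𝓝[>] (0 : ℝ), θ ∈ Ioo (0 : ℝ) 1 := Ioo_mem_nhdsGT one_pos
  obtain ⟨θ, h2, h3⟩ := (((eventually_close hε).filter_mono nhdsWithin_le_nhds).and h1).exists
  exact ⟨θ, h2, not_ergodic h3.1 h3.2⟩

end Pool.Agent.H408Z.NUH
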